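import Pool.Agent.Lib.MP_3145b1_co.RD.Spec

/-!
# MP_3145b1_co, project RG (symmetric gates): definitions and basic lemmas

The bits `i : ℕ` are independent, the bit `i` is `false` with probability `p i` and `true` with
probability `1 - p i`. `Ek p V G x` is the expectation of `G (x + number of the true bits in V)`.
-/

set_option autoImplicit false

namespace Pool.Agent.MP3145b1.RG

open Finset Pool.Agent.MP3145b1 Pool.Agent.MP3145b1.RC Pool.Agent.MP3145b1.RD

/-- probability that the set of the true bits of `V` is `U` (for `U ⊆ V`) -/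
noncomputable def pr (p : ℕ → ℝ) (V U : Finset ℕ) : ℝ := (∏ i ∈ U, (1 - p i)) * ∏ i ∈ V \ U, p i

/-- expectation of `G (x + number of true bits in V)` -/
noncomputable def Ek (p : ℕ → ℝ) (V : Finset ℕ) (G : ℕ → ℝ) (x : ℕ) : ℝ :=
  ∑ U ∈ V.powerset, pr p V U * G (x + U.card)

/-- half of the difference -/
noncomputable def Dk (G : ℕ → ℝ) (x : ℕ) : ℝ := (G x - G (x + 1)) / 2

/-- coefficient at `T` of the symmetric function `F` of the bits in `V`, starting at the count `x` -/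
noncomputable def ck (p : ℕ → ℝ) (V T : Finset ℕ) (F : ℕ → ℝ) (x : ℕ) : ℝ :=
  Ek p (V \ T) (Dk^[T.card] F) x

/-- sum of the variances of the bits -/
noncomputable def sg (p : ℕ → ℝ) (V : Finset ℕ) : ℝ := ∑ i ∈ V, p i * (1 - p i)

/-- total influence -/
noncomputable def Ik (p : ℕ → ℝ) (V : Finset ℕ) (F : ℕ → ℝ) (x : ℕ) : ℝ :=
  ∑ T ∈ V.powerset, (T.card : ℝ) * (wt p T * ck p V T F x ^ 2)

/-- influence minus variance -/
noncomputable def Bk (p : ℕ → ℝ) (V : Finset ℕ) (F : ℕ → ℝ) (x : ℕ) : ℝ :=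
  Ik p V F x - (1 - ck p V ∅ F x ^ 2)

/-- entropy (natural logarithm) -/
noncomputable def Hk (p : ℕ → ℝ) (V : Finset ℕ) (F : ℕ → ℝ) (x : ℕ) : ℝ :=
  ∑ T ∈ V.powerset, wt p T * hh (ck p V T F x ^ 2)

theorem pr_nonneg {p : ℕ → ℝ} (hp : ∀ i, 0 ≤ p i ∧ p i ≤ 1) (V U : Finset ℕ) : 0 ≤ pr p V U := by
  unfold pr
  apply mul_nonneg
  · exact Finset.prod_nonneg (fun i _ => by linarith [(hp i).2])
  · exact Finset.prod_nonneg (fun i _ => (hp i).1)

theorem pr_insert1 (p : ℕ → ℝ) {V U : Finset ℕ} {i : ℕ} (hi : i ∉ V) (hU : U ⊆ V) :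
    pr p (insert i V) U = p i * pr p V U := by
  have hiU : i ∉ U := fun h => hi (hU h)
  unfold pr
  rw [Finset.insert_sdiff_of_notMem _ hiU, Finset.prod_insert (fun h => hi (Finset.mem_sdiff.1 h).1)]
  ring

theorem pr_insert2 (p : ℕ → ℝ) {V U : Finset ℕ} {i : ℕ} (hi : i ∉ V) (hU : U ⊆ V) :
    pr p (insert i V) (insert i U) = (1 - p i) * pr p V U := by
  have hiU : i ∉ U := fun h => hi (hU h)
  unfold pr
  have e : insert i V \ insert i U = V \ U := by
    ext a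
    simp only [Finset.mem_sdiff, Finset.mem_insert]
    constructor
    · rintro ⟨h1, h2⟩
      rcases h1 with h1 | h1
      · exact absurd (Or.inl h1) h2
      · exact ⟨h1, fun h => h2 (Or.inr h)⟩
    · rintro ⟨h1, h2⟩
      refine ⟨Or.inr h1, ?_⟩
      rintro (h3 | h3)
      · exact hi (h3 ▸ h1)
      · exact h2 h3
  rw [e, Finset.prod_insert hiU]
  ring

/-- sums over the subsets of `insert i V` -/
theorem sum_ins {i : ℕ} {V : Finset ℕ} (hi : i ∉ V) (a : Finset ℕ → ℝ) :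
    ∑ U ∈ (insert i V).powerset, a U = ∑ U ∈ V.powerset, a U + ∑ U ∈ V.powerset, a (insert i U) :=
  Finset.sum_powerset_insert hi a

@[simp] theorem Ek_empty (p : ℕ → ℝ) (G : ℕ → ℝ) (x : ℕ) : Ek p ∅ G x = G x := by
  simp [Ek, pr]

theorem Ek_insert (p : ℕ → ℝ) {V : Finset ℕ} {i : ℕ} (hi : i ∉ V) (G : ℕ → ℝ) (x : ℕ) :
    Ek p (insert i V) G x = p i * Ek p V G x + (1 - p i) * Ek p V G (x + 1) := by
  unfold Ek
  rw [sum_ins hi, Finset.mul_sum, Finset.mul_sum]
  congr 1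
  · apply Finset.sum_congr rfl
    intro U hU
    rw [pr_insert1 p hi (Finset.mem_powerset.1 hU)]
    ring
  · apply Finset.sum_congr rfl
    intro U hU
    have hU' := Finset.mem_powerset.1 hU
    rw [pr_insert2 p hi hU', Finset.card_insert_of_notMem (fun h => hi (hU' h))]
    have e : x + (U.card + 1) = x + 1 + U.card := by omega
    rw [e]
    ring

theorem Ek_congr {p p' : ℕ → ℝ} {V : Finset ℕ} (h : ∀ i ∈ V, p i = p' i) (G : ℕ → ℝ) (x : ℕ) :
    Ek p V G x = Ek p' V G x := by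
  unfold Ek
  apply Finset.sum_congr rfl
  intro U hU
  have hU' := Finset.mem_powerset.1 hU
  have e : pr p V U = pr p' V U := by
    unfold pr
    congr 1
    · exact Finset.prod_congr rfl (fun i hi => by rw [h i (hU' hi)])
    · exact Finset.prod_congr rfl (fun i hi => h i (Finset.mem_sdiff.1 hi).1)
  rw [e]

theorem Ek_lin (p : ℕ → ℝ) (V : Finset ℕ) (G G' : ℕ → ℝ) (a b : ℝ) (x : ℕ) :
    Ek p V (fun y => a * G y + b * G' y) x = a * Ek p V G x + b * Ek p V G' x := by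
  unfold Ek
  rw [Finset.mul_sum, Finset.mul_sum, ← Finset.sum_add_distrib]
  apply Finset.sum_congr rfl
  intro U _
  ring

theorem Ek_const (p : ℕ → ℝ) (V : Finset ℕ) (a : ℝ) (x : ℕ) : Ek p V (fun _ => a) x = a := by
  classical
  induction V using Finset.induction_on generalizing x with
  | empty => simp
  | insert i V hi ih => rw [Ek_insert p hi, ih, ih]; ring

theorem Ek_mono {p : ℕ → ℝ} (hp : ∀ i, 0 ≤ p i ∧ p i ≤ 1) (V : Finset ℕ) {G G' : ℕ → ℝ}
    (h : ∀ y, G y ≤ G' y) (x : ℕ) : Ek p V G x ≤ Ek p V G' x :=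
  Finset.sum_le_sum (fun U _ => mul_le_mul_of_nonneg_left (h _) (pr_nonneg hp V U))

theorem Ek_nonneg {p : ℕ → ℝ} (hp : ∀ i, 0 ≤ p i ∧ p i ≤ 1) (V : Finset ℕ) {G : ℕ → ℝ}
    (h : ∀ y, 0 ≤ G y) (x : ℕ) : 0 ≤ Ek p V G x :=
  Finset.sum_nonneg (fun U _ => mul_nonneg (pr_nonneg hp V U) (h _))

theorem Ek_abs_le {p : ℕ → ℝ} (hp : ∀ i, 0 ≤ p i ∧ p i ≤ 1) (V : Finset ℕ) (G : ℕ → ℝ) (x : ℕ) :
    |Ek p V G x| ≤ Ek p V (fun y => |G y|) x := by
  unfold Ek
  refine (Finset.abs_sum_le_sum_abs _ _).trans (le_of_eq ?_)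
  apply Finset.sum_congr rfl
  intro U _
  rw [abs_mul, abs_of_nonneg (pr_nonneg hp V U)]

theorem Ek_Dk (p : ℕ → ℝ) (V : Finset ℕ) (G : ℕ → ℝ) (x : ℕ) :
    Ek p V (Dk G) x = (Ek p V G x - Ek p V G (x + 1)) / 2 := by
  classical
  induction V using Finset.induction_on generalizing x with
  | empty => simp [Dk]
  | insert i V hi ih => rw [Ek_insert p hi, Ek_insert p hi, Ek_insert p hi, ih, ih]; ring

theorem ck_empty (p : ℕ → ℝ) (V : Finset ℕ) (F : ℕ → ℝ) (x : ℕ) : ck p V ∅ F x = Ek p V F x := by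
  simp [ck]

/-- the bit `i` is not in `T` -/
theorem ck_insert1 (p : ℕ → ℝ) {V T : Finset ℕ} {i : ℕ} (hi : i ∉ V) (hT : T ⊆ V) (F : ℕ → ℝ)
    (x : ℕ) : ck p (insert i V) T F x = p i * ck p V T F x + (1 - p i) * ck p V T F (x + 1) := by
  have hiT : i ∉ T := fun h => hi (hT h)
  unfold ck
  rw [Finset.insert_sdiff_of_notMem _ hiT, Ek_insert p (fun h => hi (Finset.mem_sdiff.1 h).1)]

/-- the bit `i` is in the set -/
theorem ck_insert2 (p : ℕ → ℝ) {V T : Finset ℕ} {i : ℕ} (hi : i ∉ V) (hT : T ⊆ V) (F : ℕ → ℝ)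
    (x : ℕ) : ck p (insert i V) (insert i T) F x = (ck p V T F x - ck p V T F (x + 1)) / 2 := by
  have hiT : i ∉ T := fun h => hi (hT h)
  have e : insert i V \ insert i T = V \ T := by
    ext a
    simp only [Finset.mem_sdiff, Finset.mem_insert]
    constructor
    · rintro ⟨h1, h2⟩
      rcases h1 with h1 | h1
      · exact absurd (Or.inl h1) h2
      · exact ⟨h1, fun h => h2 (Or.inr h)⟩
    · rintro ⟨h1, h2⟩
      refine ⟨Or.inr h1, ?_⟩
      rintro (h3 | h3)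
      · exact hi (h3 ▸ h1)
      · exact h2 h3
  unfold ck
  rw [e, Finset.card_insert_of_notMem hiT, Function.iterate_succ_apply', Ek_Dk]

/-- the bit `i` is in the set, in terms of `Dk F` -/
theorem ck_insert3 (p : ℕ → ℝ) {V T : Finset ℕ} {i : ℕ} (hi : i ∉ V) (hT : T ⊆ V) (F : ℕ → ℝ)
    (x : ℕ) : ck p (insert i V) (insert i T) F x = ck p V T (Dk F) x := by
  rw [ck_insert2 p hi hT]
  unfold ck
  rw [← Ek_Dk, ← Function.iterate_succ_apply' Dk T.card F, Function.iterate_succ_apply]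

end Pool.Agent.MP3145b1.RG
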