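import Pool.Agent.Lib.MP_3145b1_co.RD.Spec

/-!
# MP_3145b1_co, project RG (gates of linear forms): definitions and basic lemmas

The bits `i : ℕ` are independent, the bit `i` is `false` with probability `p i` and `true` with
probability `1 - p i`. The bit `i` adds `a i` (if it is `true`) to the state `z : ℝ`.
`Eg p a V G z` is the expectation of `G (z + sum of the a i over the true bits in V)`.
-/

set_option autoImplicit false

namespace Pool.Agent.MP3145b1.RG

open Finset Pool.Agent.MP3145b1 Pool.Agent.MP3145b1.RC Pool.Agent.MP3145b1.RD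

/-- probability that the set of the true bits of `V` is `U` (for `U ⊆ V`) -/
noncomputable def pg (p : ℕ → ℝ) (V U : Finset ℕ) : ℝ := (∏ i ∈ U, (1 - p i)) * ∏ i ∈ V \ U, p i

/-- expectation of `G (z + ∑ a i over the true bits in V)` -/
noncomputable def Eg (p a : ℕ → ℝ) (V : Finset ℕ) (G : ℝ → ℝ) (z : ℝ) : ℝ :=
  ∑ U ∈ V.powerset, pg p V U * G (z + ∑ i ∈ U, a i)

/-- half of the difference for the bit `i` -/
noncomputable def Dg (a : ℕ → ℝ) (i : ℕ) (G : ℝ → ℝ) (z : ℝ) : ℝ := (G z - G (z + a i)) / 2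

/-- coefficient at `T` of the gate `F` of the bits in `V`, starting at the state `z`
(not normalised: for `i ∈ T` half of the difference, for `i ∉ T` the mean) -/
noncomputable def cg (p a : ℕ → ℝ) (V T : Finset ℕ) (F : ℝ → ℝ) (z : ℝ) : ℝ :=
  ∑ R ∈ T.powerset, ((-1) ^ R.card / 2 ^ T.card) * Eg p a (V \ T) F (z + ∑ i ∈ R, a i)

theorem pg_nonneg {p : ℕ → ℝ} (hp : ∀ i, 0 ≤ p i ∧ p i ≤ 1) (V U : Finset ℕ) : 0 ≤ pg p V U := by
  unfold pg
  apply mul_nonneg
  · exact Finset.prod_nonneg (fun i _ => by linarith [(hp i).2])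
  · exact Finset.prod_nonneg (fun i _ => (hp i).1)

theorem pg_insert1 (p : ℕ → ℝ) {V U : Finset ℕ} {i : ℕ} (hi : i ∉ V) (hU : U ⊆ V) :
    pg p (insert i V) U = p i * pg p V U := by
  have hiU : i ∉ U := fun h => hi (hU h)
  unfold pg
  rw [Finset.insert_sdiff_of_notMem _ hiU, Finset.prod_insert (fun h => hi (Finset.mem_sdiff.1 h).1)]
  ring

theorem sdiff_ins {V U : Finset ℕ} {i : ℕ} (hi : i ∉ V) : insert i V \ insert i U = V \ U := by
  ext a
  simp only [Finset.mem_sdiff, Finset.mem_insert]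
  constructor
  · rintro ⟨h1, h2⟩
    rcases h1 with h1 | h1
    · exact absurd (Or.inl h1) h2
    · exact ⟨h1, fun h => h2 (Or.inr h)⟩
  · rintro ⟨h1, h2⟩
    refine ⟨Or.inr h1, ?_⟩
    rintro (h3 | h3)
    · exact hi (h3 ▸ h1)
    · exact h2 h3

theorem pg_insert2 (p : ℕ → ℝ) {V U : Finset ℕ} {i : ℕ} (hi : i ∉ V) (hU : U ⊆ V) :
    pg p (insert i V) (insert i U) = (1 - p i) * pg p V U := by
  have hiU : i ∉ U := fun h => hi (hU h)
  unfold pg
  rw [sdiff_ins hi, Finset.prod_insert hiU]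
  ring

/-- sums over the subsets of `insert i V` -/
theorem sum_ing {i : ℕ} {V : Finset ℕ} (hi : i ∉ V) (b : Finset ℕ → ℝ) :
    ∑ U ∈ (insert i V).powerset, b U = ∑ U ∈ V.powerset, b U + ∑ U ∈ V.powerset, b (insert i U) :=
  Finset.sum_powerset_insert hi b

@[simp] theorem Eg_empty (p a : ℕ → ℝ) (G : ℝ → ℝ) (z : ℝ) : Eg p a ∅ G z = G z := by
  simp [Eg, pg]

theorem Eg_insert (p a : ℕ → ℝ) {V : Finset ℕ} {i : ℕ} (hi : i ∉ V) (G : ℝ → ℝ) (z : ℝ) :
    Eg p a (insert i V) G z = p i * Eg p a V G z + (1 - p i) * Eg p a V G (z + a i) := by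
  unfold Eg
  rw [sum_ing hi, Finset.mul_sum, Finset.mul_sum]
  congr 1
  · apply Finset.sum_congr rfl
    intro U hU
    rw [pg_insert1 p hi (Finset.mem_powerset.1 hU)]
    ring
  · apply Finset.sum_congr rfl
    intro U hU
    have hU' := Finset.mem_powerset.1 hU
    rw [pg_insert2 p hi hU', Finset.sum_insert (fun h => hi (hU' h))]
    have e : z + (a i + ∑ j ∈ U, a j) = z + a i + ∑ j ∈ U, a j := by ring
    rw [e]
    ring

theorem Eg_lin (p a : ℕ → ℝ) (V : Finset ℕ) (G G' : ℝ → ℝ) (c d : ℝ) (z : ℝ) :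
    Eg p a V (fun y => c * G y + d * G' y) z = c * Eg p a V G z + d * Eg p a V G' z := by
  unfold Eg
  rw [Finset.mul_sum, Finset.mul_sum, ← Finset.sum_add_distrib]
  apply Finset.sum_congr rfl
  intro U _
  ring

theorem Eg_const (p a : ℕ → ℝ) (V : Finset ℕ) (c : ℝ) (z : ℝ) : Eg p a V (fun _ => c) z = c := by
  classical
  induction V using Finset.induction_on generalizing z with
  | empty => simp
  | insert i V hi ih => rw [Eg_insert p a hi, ih, ih]; ring

theorem Eg_mono {p : ℕ → ℝ} (hp : ∀ i, 0 ≤ p i ∧ p i ≤ 1) (a : ℕ → ℝ) (V : Finset ℕ) {G G' : ℝ → ℝ}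
    (h : ∀ y, G y ≤ G' y) (z : ℝ) : Eg p a V G z ≤ Eg p a V G' z :=
  Finset.sum_le_sum (fun U _ => mul_le_mul_of_nonneg_left (h _) (pg_nonneg hp V U))

theorem Eg_nonneg {p : ℕ → ℝ} (hp : ∀ i, 0 ≤ p i ∧ p i ≤ 1) (a : ℕ → ℝ) (V : Finset ℕ) {G : ℝ → ℝ}
    (h : ∀ y, 0 ≤ G y) (z : ℝ) : 0 ≤ Eg p a V G z :=
  Finset.sum_nonneg (fun U _ => mul_nonneg (pg_nonneg hp V U) (h _))

theorem Eg_abs_le {p : ℕ → ℝ} (hp : ∀ i, 0 ≤ p i ∧ p i ≤ 1) (a : ℕ → ℝ) (V : Finset ℕ) (G : ℝ → ℝ) (z : ℝ) :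
    |Eg p a V G z| ≤ Eg p a V (fun y => |G y|) z := by
  unfold Eg
  refine (Finset.abs_sum_le_sum_abs _ _).trans (le_of_eq ?_)
  apply Finset.sum_congr rfl
  intro U _
  rw [abs_mul, abs_of_nonneg (pg_nonneg hp V U)]

/-- translation -/
theorem Eg_shift (p a : ℕ → ℝ) (V : Finset ℕ) (G : ℝ → ℝ) (c z : ℝ) :
    Eg p a V (fun y => G (y + c)) z = Eg p a V G (z + c) := by
  unfold Eg
  apply Finset.sum_congr rfl
  intro U _
  have e : z + ∑ i ∈ U, a i + c = z + c + ∑ i ∈ U, a i := by ring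
  show pg p V U * G (z + ∑ i ∈ U, a i + c) = _
  rw [e]

theorem Eg_Dg (p a : ℕ → ℝ) (V : Finset ℕ) (i : ℕ) (G : ℝ → ℝ) (z : ℝ) :
    Eg p a V (Dg a i G) z = (Eg p a V G z - Eg p a V G (z + a i)) / 2 := by
  have h1 : Dg a i G = fun y => 1 / 2 * G y + (-(1 / 2)) * (fun y => G (y + a i)) y := by
    funext y; unfold Dg; ring
  rw [h1, Eg_lin, Eg_shift]
  ring

theorem cg_empty (p a : ℕ → ℝ) (V : Finset ℕ) (F : ℝ → ℝ) (z : ℝ) : cg p a V ∅ F z = Eg p a V F z := by
  simp [cg]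

/-- the bit `i` is not in `T` -/
theorem cg_insert1 (p a : ℕ → ℝ) {V T : Finset ℕ} {i : ℕ} (hi : i ∉ V) (hT : T ⊆ V) (F : ℝ → ℝ)
    (z : ℝ) : cg p a (insert i V) T F z = p i * cg p a V T F z + (1 - p i) * cg p a V T F (z + a i) := by
  have hiT : i ∉ T := fun h => hi (hT h)
  unfold cg
  rw [Finset.insert_sdiff_of_notMem _ hiT, Finset.mul_sum, Finset.mul_sum, ← Finset.sum_add_distrib]
  apply Finset.sum_congr rfl
  intro R _
  rw [Eg_insert p a (fun h => hi (Finset.mem_sdiff.1 h).1)]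
  have e : z + a i + ∑ j ∈ R, a j = z + ∑ j ∈ R, a j + a i := by ring
  rw [e]
  ring

/-- the bit `i` is in the set -/
theorem cg_insert2 (p a : ℕ → ℝ) {V T : Finset ℕ} {i : ℕ} (hi : i ∉ V) (hT : T ⊆ V) (F : ℝ → ℝ)
    (z : ℝ) : cg p a (insert i V) (insert i T) F z = (cg p a V T F z - cg p a V T F (z + a i)) / 2 := by
  have hiT : i ∉ T := fun h => hi (hT h)
  unfold cg
  rw [sdiff_ins hi, sum_ing hiT, ← Finset.sum_sub_distrib, Finset.sum_div, ← Finset.sum_add_distrib]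
  apply Finset.sum_congr rfl
  intro R hR
  have hR' : i ∉ R := fun h => hiT (Finset.mem_powerset.1 hR h)
  rw [Finset.card_insert_of_notMem hiT, Finset.card_insert_of_notMem hR', Finset.sum_insert hR', pow_succ, pow_succ]
  have e : z + (a i + ∑ j ∈ R, a j) = z + a i + ∑ j ∈ R, a j := by ring
  rw [e]
  have h2 : (2 : ℝ) ^ T.card ≠ 0 := by positivity
  field_simp
  ring

/-- the bit `i` is in the set, in terms of `Dg a i F` -/
theorem cg_insert3 (p a : ℕ → ℝ) {V T : Finset ℕ} {i : ℕ} (hi : i ∉ V) (hT : T ⊆ V) (F : ℝ → ℝ)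
    (z : ℝ) : cg p a (insert i V) (insert i T) F z = cg p a V T (Dg a i F) z := by
  rw [cg_insert2 p a hi hT]
  unfold cg
  rw [← Finset.sum_sub_distrib, Finset.sum_div]
  apply Finset.sum_congr rfl
  intro R _
  rw [Eg_Dg]
  have e : z + a i + ∑ j ∈ R, a j = z + ∑ j ∈ R, a j + a i := by ring
  rw [e]
  ring

/-- coefficients at sets which avoid `G`: first average over the bits in `G` -/
theorem cg_union (p a : ℕ → ℝ) {V T : Finset ℕ} (G : Finset ℕ) (hG : Disjoint G V) (hT : T ⊆ V) (F : ℝ → ℝ)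
    (z : ℝ) : cg p a (G ∪ V) T F z = cg p a V T (Eg p a G F) z := by
  classical
  induction G using Finset.induction_on generalizing z F with
  | empty => simp [cg, funext (fun z => Eg_empty p a F z)]
  | insert i G hi ih =>
    have hiV : i ∉ V := Finset.disjoint_left.1 hG (Finset.mem_insert_self i G)
    have hG' : Disjoint G V := Finset.disjoint_of_subset_left (Finset.subset_insert i G) hG
    rw [Finset.insert_union, cg_insert1 p a (by simp [hi, hiV]) (hT.trans Finset.subset_union_right), ih hG', ih hG']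
    have h1 : Eg p a (insert i G) F = fun y => p i * Eg p a G F y + (1 - p i) * (fun y => Eg p a G F (y + a i)) y := by
      funext y; rw [Eg_insert p a hi]
    rw [h1]
    unfold cg
    rw [Finset.mul_sum, Finset.mul_sum, ← Finset.sum_add_distrib]
    apply Finset.sum_congr rfl
    intro R _
    rw [Eg_lin, Eg_shift]
    have e : z + a i + ∑ j ∈ R, a j = z + ∑ j ∈ R, a j + a i := by ring
    rw [e]
    ring

end Pool.Agent.MP3145b1.RG
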