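import Pool.Agent.Lib.MP_3145b1_co.RG.Def

/-!
# MP_3145b1_co, project RG (architect helper45): symmetric gates of unbounded arity

THEOREM. `RG w` = smallest class with the constants and variables, closed under read-once composition with (i) read-once
branching programs of width `w` and (ii) ARBITRARY SYMMETRIC functions of any arity. There is an ABSOLUTE `C` such that for
all `w ≥ 1`, `f` in `RG w`: `Ent(f) - h(f^(∅)^2) ≤ C w (I(f) - Var f)`, `Ent(f) ≤ C w I(f)`, a coefficient is `≥ 2^(-C w I/2)`.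
New part: the inequality `PG` for one symmetric gate with arbitrary biases `p i` and an absolute constant (`S_HSy`);
`s = sum of p i (1 - p i)`: for `s ≤ 8` the arguments of RD with a local `LR` (Part 3), for `s ≥ 8` Parts 1 and 2.

RULES. Module X: file Pool/Agent/Lib/MP_3145b1_co/RG/X.lean, `import Pool.Agent.Lib.MP_3145b1_co.RG.Spec`,
`set_option autoImplicit false`, `namespace Pool.Agent.MP3145b1.RG`, `open Finset Pool.Agent.MP3145b1 Pool.Agent.MP3145b1.RC Pool.Agent.MP3145b1.RD`,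
final theorem `theorem rX (h1 : S_A) ... : S_X` (the statements listed under Uses, in this order, are the hypotheses; those which
are not called S_H.. are statements of RD/Spec.lean or RC/Spec.lean, SpecM, SpecN, SpecF). Auxiliary lemmas private, names X_.
READ FIRST: RG/Def.lean (pr, Ek, Dk, ck, sg, Ik, Bk, Hk; sum_ins, Ek_insert, Ek_Dk, ck_insert1, ck_insert2, ck_insert3), for Part 3
also RC/Def.lean. MODEL: RD/X.lean means: copy this proved file and change it. `wt_insert`, `wt_nonneg` are in RC/Def.lean. In all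
docstrings `v_i = p i * (1 - p i)`, `c_T = ck p V T F x`. Statements about `V` are proved by Finset.induction_on (for all `x`).
-/

set_option autoImplicit false

namespace Pool.Agent.MP3145b1.RG

open Finset Pool.Agent.MP3145b1 Pool.Agent.MP3145b1.RC Pool.Agent.MP3145b1.RD

/-! ## Part 1: exact averaging over the variable which is read first (all boolean functions; here symmetric ones) -/

/-- weight of a set with `L` elements in the potential, `s` = sum of the variances outside the set -/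
noncomputable def Ps (lam : ℕ → ℝ) (s : ℝ) (L : ℕ) : ℝ :=
  ∑ k ∈ Ico 1 L, 7 * (1 + 1 / 2 * Real.log (1 + lam k)) + s / (L + 1) * ∑ k ∈ Icc 1 L, (7 / 2) / (1 + lam k)

/-- the potential -/
noncomputable def Ph (p : ℕ → ℝ) (lam : ℕ → ℝ) (V : Finset ℕ) (F : ℕ → ℝ) (x : ℕ) : ℝ :=
  ∑ S ∈ V.powerset, wt p S * (ck p V S F x ^ 2 * Ps lam (sg p (V \ S)) S.card)

/-- cost of reading the variable `i` first, `W` = the other variables -/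
noncomputable def Rm (p : ℕ → ℝ) (lam : ℕ → ℝ) (W : Finset ℕ) (i : ℕ) (F : ℕ → ℝ) (x : ℕ) : ℝ :=
  ∑ T ∈ W.powerset.erase ∅, wt p T * (7 * (p i * (1 - p i)) *
    ((ck p W T F x - ck p W T F (x + 1)) ^ 2 * (1 + 1 / 2 * Real.log (1 + lam T.card)) +
      1 / 2 * ((p i * ck p W T F x + (1 - p i) * ck p W T F (x + 1)) ^ 2 / (1 + lam T.card))))

/-- **HTl** (linearised two-point inequality). Uses: S_GTw.
Proof. `U = p a + (1-p) b`, `δ = a - b`. S_GTw: `dlp ≤ 7 v δ^2 (1 + lg |U| δ)`. `δ = 0`: the right side of S_GTw is `0` and ours is `≥ 0`. `U = 0`: `lg 0 δ = 0` (`log 0 = 0`), and `log (1 + lam) ≥ 0`. Otherwise `y = U^2/δ^2 > 0`: `lg |U| δ = max 0 ((1/2) log y) ≤ (1/2) log (1 + y)`, and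
`log (1 + y) = log (1 + lam) + log ((1+y)/(1+lam)) ≤ log (1 + lam) + (1+y)/(1+lam) - 1 ≤ log (1 + lam) + y/(1 + lam)`; multiply by `δ^2/2`. -/
def S_HTl : Prop := ∀ (lam p a b : ℝ), 0 < lam → 0 ≤ p → p ≤ 1 →
  dlp p a b ≤ 7 * (p * (1 - p)) * ((a - b) ^ 2 * (1 + 1 / 2 * Real.log (1 + lam)) +
    1 / 2 * ((p * a + (1 - p) * b) ^ 2 / (1 + lam)))

/-- **HPa** (Parseval). Uses: nothing.
Proof. Induction on `V`, for all `x`: sum_ins, ck_insert1, ck_insert2, wt_insert; with `a = ck p V T G x`, `b = ck p V T G (x+1)`: `wt T (p a + (1-p) b)^2 + 4 p (1-p) wt T ((a-b)/2)^2 = wt T (p a^2 + (1-p) b^2)`; Ek_insert. -/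
def S_HPa : Prop := ∀ (p : ℕ → ℝ) (V : Finset ℕ) (G : ℕ → ℝ) (x : ℕ),
  ∑ T ∈ V.powerset, wt p T * ck p V T G x ^ 2 = Ek p V (fun y => G y ^ 2) x

/-- **HBr** (one variable). Uses: S_HPa.
Proof. `a = ck p V T F x`, `b = ck p V T F (x+1)`, `U = p a + (1-p) b`, `W = (a-b)/2 = ck p V T (Dk F) x` (ck_insert2, ck_insert3). (1) sum_ins, ck_insert1, ck_insert2, wt_insert: `wt T hh (U^2) + 4 p (1-p) wt T hh (W^2) = wt T (dlp p a b + p hh (a^2) + (1-p) hh (b^2))`.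
(2) `U^2 + 4 p (1-p) W^2 = p a^2 + (1-p) b^2`, so `|T| wt T U^2 + (|T|+1) 4 p (1-p) wt T W^2 = |T| wt T (p a^2 + (1-p) b^2) + 4 p (1-p) wt T W^2`; and `1 - U_∅^2 = p (1 - a_∅^2) + (1-p)(1 - b_∅^2) + 4 p (1-p) W_∅^2`. (3) ck_empty, `Dk F` has values `0, 1, -1`, so `|Dk F| = (Dk F)^2`; Ek_abs_le, S_HPa. -/
def S_HBr : Prop := ∀ (p : ℕ → ℝ) (V : Finset ℕ) (i : ℕ) (F : ℕ → ℝ) (x : ℕ), (∀ j, 0 ≤ p j ∧ p j ≤ 1) →
  (∀ y, F y = 1 ∨ F y = -1) → i ∉ V →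
  (Hk p (insert i V) F x = p i * Hk p V F x + (1 - p i) * Hk p V F (x + 1) +
    ∑ T ∈ V.powerset, wt p T * dlp (p i) (ck p V T F x) (ck p V T F (x + 1))) ∧
  (Bk p (insert i V) F x = p i * Bk p V F x + (1 - p i) * Bk p V F (x + 1) +
    4 * (p i * (1 - p i)) * (∑ T ∈ V.powerset, wt p T * ck p V T (Dk F) x ^ 2 - ck p V ∅ (Dk F) x ^ 2)) ∧
  |ck p V ∅ (Dk F) x| ≤ ∑ T ∈ V.powerset, wt p T * ck p V T (Dk F) x ^ 2

/-- **HDc** (double counting). Uses: nothing. (It is an equality; `≤` is enough.)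
Proof. `i ∈ V`, `W = V.erase i`, `V = insert i W`. For `T ⊆ W`: `a = ck p W T F x`, `b = ck p W T F (x+1)`; `c_T = p a + (1-p) b`, `c_(T∪i) = (a-b)/2`, `wt (insert i T) = 4 v_i wt T`, `p a^2 + (1-p) b^2 = c_T^2 + 4 v_i c_(T∪i)^2`. So the `i`-th term is
`∑_{T ⊆ W} wt T c_T^2 (Ps (sg (W \ T)) |T| + [T ≠ ∅] (7/2) v_i/(1 + lam |T|)) + ∑_{T ⊆ W} wt (T∪i) c_(T∪i)^2 (Ps (sg (W \ T)) |T| + [T ≠ ∅] 7 (1 + (1/2) log (1 + lam |T|)))`. Sum over `i`, collect the coefficient of `wt S c_S^2` for every `S ⊆ V`: `S = T` for the `i ∈ V \ S` (`sg (W \ S) = sg (V \ S) - v_i`), `S = insert i T` for the `i ∈ S` (`W \ T = V \ S`).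
`L = |S|`, `m = |V|`, `σ = sg (V \ S)`, `g_L = ∑_{k ∈ Ico 1 L} 7(1 + (1/2) log (1 + lam k))`, `G_L = ∑_{k ∈ Icc 1 L} β_k`, `β_k = (7/2)/(1 + lam k)`, `Ps σ L = g_L + σ G_L/(L+1)`. `L = 0`: all terms are `0`. `L ≥ 1`: the coefficient is `∑_{i ∈ V \ S} (g_L + (σ - v_i) G_L/(L+1) + v_i β_L) + L (g_(L-1) + σ G_(L-1)/L + [L ≥ 2] 7 (1 + (1/2) log (1 + lam (L-1))))
= (m - L) g_L + ((m - L) σ - σ) G_L/(L+1) + σ β_L + L g_L + σ G_(L-1) = m g_L + σ G_L ((m - L - 1)/(L+1) + 1) = m Ps σ L` (`g_L = g_(L-1) + [L ≥ 2] 7(..)`, `G_L = G_(L-1) + β_L`). -/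
def S_HDc : Prop := ∀ (p : ℕ → ℝ) (lam : ℕ → ℝ) (V : Finset ℕ) (F : ℕ → ℝ) (x : ℕ),
  ∑ i ∈ V, (p i * Ph p lam (V.erase i) F x + (1 - p i) * Ph p lam (V.erase i) F (x + 1) + Rm p lam (V.erase i) i F x) ≤
    (V.card : ℝ) * Ph p lam V F x

/-- **HAv** (averaging). Uses: S_HTl, S_HBr, S_HDc.
Proof. Induction on the cardinality of `V` (for all `V`, `x`). `V = ∅`: `Hk = hh (F x ^2)` (`wt ∅ = 1`), `Bk = 0` (`F x^2 = 1`), `Ph = 0`. `V ≠ ∅`: for every `i ∈ V`, `W = V.erase i`, claim: `Hk p V F x ≤ hh (c_∅^2) + 2 Bk p V F x + (p_i Ph W x + (1-p_i) Ph W (x+1) + Rm W i)`. S_HBr (1) and the induction hypothesis at `x`, `x+1`; with `a, b` = values for `T = ∅`,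
`d = ck p W ∅ (Dk F) x = (a-b)/2`, `J = ∑_T wt ck p W T (Dk F)^2`: `dlp p a b + p hh (a^2) + (1-p) hh (b^2) = hh (c_∅^2) + 4 v_i hh (d^2)`, `hh (d^2) = -2 d^2 log |d| ≤ 2 (|d| - d^2) ≤ 2 (J - d^2)` (`log (1/|d|) ≤ 1/|d| - 1`; `d = 0` clear; S_HBr (3)), and `2 * 4 v_i (J - d^2) = 2 (Bk V x - p Bk W x - (1-p) Bk W (x+1))` (S_HBr (2)).
The terms `T ≠ ∅`: S_HTl with `lam T.card` (`T.card ≥ 1`), sum `≤ Rm`. Sum the claims over `i ∈ V`, S_HDc, divide by `V.card > 0`. -/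
def S_HAv : Prop := ∀ (p : ℕ → ℝ) (lam : ℕ → ℝ) (V : Finset ℕ) (F : ℕ → ℝ) (x : ℕ), (∀ j, 0 ≤ p j ∧ p j ≤ 1) →
  (∀ k, 1 ≤ k → 0 < lam k) → (∀ y, F y = 1 ∨ F y = -1) →
  Hk p V F x ≤ hh (ck p V ∅ F x ^ 2) + 2 * Bk p V F x + Ph p lam V F x

/-- **HPs** (the potential for `lam k = s/k`). Uses: nothing.
Proof. `∑_{Ico 1 L} 7 ≤ 7 L`. `k ≥ 1`: `1/(1 + s/k) ≤ k/s`, so the second term is `≤ s'/(L+1) * (7/2) (1/s) L (L+1)/2 ≤ (7/4) L` (Gauss sum: `∑_{k ∈ Icc 1 L} k = L (L+1)/2`, induction). -/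
def S_HPs : Prop := ∀ (s s' : ℝ) (L : ℕ), 0 < s → 0 ≤ s' → s' ≤ s →
  Ps (fun k => s / k) s' L ≤ 9 * L + 7 / 2 * ∑ k ∈ Ico 1 L, Real.log (1 + s / k)

/-! ## Part 2: symmetric functions, sum of the variances at least 8 -/

/-- probability of `false` for the noisy bits, given that `U` is the set of the true bits (correlation `r`) -/
noncomputable def pq (p : ℕ → ℝ) (r : ℝ) (U : Finset ℕ) : ℕ → ℝ :=
  fun i => if i ∈ U then (1 - r) * p i else r + (1 - r) * p i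

/-- **HSt** (noise). Uses: nothing.
Proof. Induction on `V`, for all `x, y`; `L x y` = left side for `V`, `q = 1 - p_i`. Left side for `insert i V` (sum_ins, ck_insert1, ck_insert2, wt_insert): `(p^2 + r p q) L x y + p q (1-r) (L x (y+1) + L (x+1) y) + (q^2 + r p q) L (x+1) (y+1)`. Right side: `U ⊆ V`: pr_insert1, Ek_insert with `pq p r U i = r + (1-r) p` (`i ∉ U`): `p (r + (1-r) p) = p^2 + r p q`, `p (1 - r - (1-r) p) = p q (1-r)`.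
`insert i U`: pr_insert2, `pq p r (insert i U) i = (1-r) p`, and `pq p r (insert i U) = pq p r U` on `V` (Ek_congr, `i ∉ V`): `q (1-r) p` and `q (1 - (1-r) p) = q^2 + r p q`; `x + (insert i U).card = (x+1) + U.card`. -/
def S_HSt : Prop := ∀ (p : ℕ → ℝ) (r : ℝ) (V : Finset ℕ) (G G' : ℕ → ℝ) (x y : ℕ),
  ∑ T ∈ V.powerset, r ^ T.card * (wt p T * (ck p V T G x * ck p V T G' y)) =
    ∑ U ∈ V.powerset, pr p V U * (G (x + U.card) * Ek (pq p r U) V G' y)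

/-- **HBn** (fair coins). Uses: nothing.
Proof. `r = V.card`. `Ek (1/2) V F y = ∑_{j ≤ r} (r choose j)/2^r F (y+j)` (Finset.sum_powerset_apply_card or induction with Ek_insert and Pascal). The difference is `∑_{j ≤ r+1} (C(r,j) - C(r,j-1))/2^r F (y+j)` (`C(r,-1) = 0`), at most `∑_j |C(r,j) - C(r,j-1)|/2^r = 2 C(r, r/2)/2^r` (increasing up to `r/2`, then decreasing; telescoping).
`C(r, r/2)/2^r ≤ 1/sqrt (r+1)`: for `r = 2m`: `(C(2m,m)/4^m)^2 ≤ 1/(2m+1)` by induction (`((2m+1)/(2m+2))^2 ≤ (2m+1)/(2m+3)`); `r = 2m+1`: `C(2m+1,m) = C(2m+2,m+1)/2`. (Any other proof of the bound is fine.) -/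
def S_HBn : Prop := ∀ (V : Finset ℕ) (F : ℕ → ℝ) (y : ℕ), (∀ z, |F z| ≤ 1) →
  |Ek (fun _ => 1 / 2) V F y - Ek (fun _ => 1 / 2) V F (y + 1)| ≤ 2 / Real.sqrt (V.card + 1)

/-- **HMx** (every bit is a fair coin with probability `2 min (p, 1-p)`, otherwise deterministic). Uses: nothing.
Proof. Induction on `V`, for all `y`; `μ = min (p i) (1 - p i)`. Sets `R ⊆ insert i V` without `i` (sum_ins): factor `1 - 2 μ`, `(insert i V) \ R = insert i (V \ R)`, the shift is larger by one iff `p i < 1/2`. Sets `insert i R`: factor `2 μ`, Ek_insert with `1/2`. If `p i < 1/2`: `μ = p i`: `(1 - 2μ) E(y+1) + 2μ (E(y)/2 + E(y+1)/2) = μ E(y) + (1-μ) E(y+1)`, `μ = p i`.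
If `p i ≥ 1/2`: `μ = 1 - p i`: `(1 - 2μ) E(y) + μ (E(y) + E(y+1)) = (1-μ) E(y) + μ E(y+1)`. (`E(y)` = the sum for `V` at `y`.) -/
def S_HMx : Prop := ∀ (p : ℕ → ℝ) (V : Finset ℕ) (F : ℕ → ℝ) (y : ℕ), (∀ j, 0 ≤ p j ∧ p j ≤ 1) →
  Ek p V F y = ∑ R ∈ V.powerset, (∏ i ∈ R, 2 * min (p i) (1 - p i)) * (∏ i ∈ V \ R, (1 - 2 * min (p i) (1 - p i))) *
    Ek (fun _ => 1 / 2) R F (y + ((V \ R).filter (fun i => p i < 1 / 2)).card)

/-- **HHm** (negative moment of a sum of independent bits). Uses: nothing.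
Proof. `P R = (∏_{R} ν)(∏_{V \ R} (1-ν))`, `∑_{R ⊆ V} P R = 1` (Finset.prod_add or induction). (a) `(∑_i ν_i) E ≤ 1` with `E = ∑_R P R/(|R|+1)`: `1 ≥ ∑_{R ≠ ∅} P R = ∑_{R} P R ∑_{i ∈ R} 1/|R| = ∑_{i ∈ V} ν_i ∑_{R' ⊆ V.erase i} P'(R')/(|R'|+1)` (`R = insert i R'`, `P'` = the weight for `V.erase i`), and
`∑_{R' ⊆ V.erase i} P'(R')/(|R'|+1) ≥ E` (split `R ⊆ V` into `R'` and `insert i R'`: `P R' = (1-ν_i) P'(R')`, `P (insert i R') = ν_i P'(R')`, `1/(|R'|+2) ≤ 1/(|R'|+1)`). (b) Cauchy-Schwarz or Jensen with `∑ P = 1`: `(∑ P/sqrt (|R|+1))^2 ≤ ∑ P/(|R|+1) ≤ 1/m`. -/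
def S_HHm : Prop := ∀ (ν : ℕ → ℝ) (V : Finset ℕ) (m : ℝ), (∀ j, 0 ≤ ν j ∧ ν j ≤ 1) → 0 < m → m ≤ ∑ i ∈ V, ν i →
  ∑ R ∈ V.powerset, (∏ i ∈ R, ν i) * (∏ i ∈ V \ R, (1 - ν i)) / Real.sqrt (R.card + 1) ≤ 1 / Real.sqrt m

/-- **HSm** (smoothing). Uses: S_HBn, S_HMx, S_HHm.
Proof. S_HMx at `y` and `y+1` (same shifts): the difference is `∑_R P R (Ek (1/2) R F z - Ek (1/2) R F (z+1))`, `P R ≥ 0` with `ν = 2 min (p, 1-p) ∈ [0,1]`; S_HBn, S_HHm. -/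
def S_HSm : Prop := ∀ (p : ℕ → ℝ) (V : Finset ℕ) (F : ℕ → ℝ) (y : ℕ) (m : ℝ), (∀ j, 0 ≤ p j ∧ p j ≤ 1) →
  (∀ z, |F z| ≤ 1) → 0 < m → m ≤ ∑ i ∈ V, 2 * min (p i) (1 - p i) →
  |Ek p V F y - Ek p V F (y + 1)| ≤ 2 / Real.sqrt m

/-- **HIr** (noisy influence). Uses: S_HPa, S_HSt, S_HSm.
Proof. `s = sg p V`, `G = Dk F` (values `0, 1, -1`, `|G| = G^2`). (a) for all real `ρ`: `∑_{T ⊆ V} |T| ρ^(|T|-1) wt T c_T^2 = ∑_{i ∈ V} 4 v_i ∑_{T' ⊆ V.erase i} ρ^|T'| wt T' (ck p (V.erase i) T' G x)^2` (`|T| a_T = ∑_{i ∈ T} a_T`, exchange the sums, `T = insert i T'`, ck_insert3, wt_insert). (b) `i ∈ V`, `W = V.erase i`: S_HSt (`G' = G`, `y = x`):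
the inner sum for `ρ = r` is `∑_U pr p W U G(x+|U|) Ek (pq p r U) W G x`. Ek_Dk and S_HSm (`p` replaced by `pq p r U`, which is in `[0,1]`) with `m = (1-r) s > 0`: `|Ek (pq p r U) W G x| ≤ 1/sqrt ((1-r) s)`. Its hypothesis: `min (pq l) (1 - pq l) ≥ (1-r) v_l` (`l ∈ U`: `pq l = (1-r) p_l ≤ 1/2`; `l ∉ U`: `1 - pq l = (1-r)(1-p_l) ≤ 1/2`),
so the sum is `≥ 2 (1-r) sg p W ≥ 2 (1-r) (s - 1/4) ≥ (1-r) s`. So the inner sum is `≤ (1/sqrt ((1-r) s)) ∑_U pr p W U G(x+|U|)^2 = (1/sqrt ..) Ek p W (G^2) x`, `= (1/sqrt ..) ∑_{T'} wt T' (ck p W T' G x)^2` (S_HPa). Sum over `i` with the weights `4 v_i ≥ 0`, (a) for `ρ = 1`. -/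
def S_HIr : Prop := ∀ (p : ℕ → ℝ) (V : Finset ℕ) (F : ℕ → ℝ) (x : ℕ) (r : ℝ), (∀ j, 0 ≤ p j ∧ p j ≤ 1) →
  (∀ y, F y = 1 ∨ F y = -1) → 1 / 2 ≤ r → r < 1 → 1 / 2 ≤ sg p V →
  ∑ T ∈ V.powerset, (T.card : ℝ) * (r ^ (T.card - 1) * (wt p T * ck p V T F x ^ 2)) ≤
    Ik p V F x / Real.sqrt ((1 - r) * sg p V)

/-- **HDy** (logarithms as a dyadic sum). Uses: nothing.
Proof. `m = L - 1`; `m = 0` clear. (a) `∑_{k=1}^m log (1 + s/k) ≤ m + m log (1 + s/m)`: `log ((k+s)/k) ≤ log (m+s) - log k`, and `∑_{k ≤ m} log k = log m! ≥ m log m - m` (induction on `m`, or `m^m/m! ≤ exp m`: Real.pow_div_factorial_le_exp or similar). (b) `N` = number of `j ∈ Icc 1 J` with `L ≤ 2^j`. For these `j`: `(1 - 2^(-j))^(L-1) ≥ (1 - 1/L)^(L-1) ≥ 1/3`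
(`(1 + 1/(L-1))^(L-1) ≤ e ≤ 3`). So the right side is `≥ 4 L + N L`. (c) `log (1 + s/m) ≤ 2 + N`: let `j0 ≥ 1` be least with `L ≤ 2^j0`; then `2^j0 ≤ 2 L ≤ 4 m`. If `j0 ≤ J`: `N = J - j0 + 1`, `s < 2^(J+1) = 2^(j0+N) ≤ 4 m 2^N`, `log (1 + 4 * 2^N) ≤ log 5 + N log 2 ≤ 2 + N`. If `j0 > J`: `s < 2^(J+1) ≤ 2^j0 ≤ 4 m`. -/
def S_HDy : Prop := ∀ (s : ℝ) (J L : ℕ), 0 < s → s < 2 ^ (J + 1) →
  ∑ k ∈ Ico 1 L, Real.log (1 + s / k) ≤ 4 * L + 3 * ∑ j ∈ Icc 1 J, (L : ℝ) * (1 - (1 / 2) ^ j) ^ (L - 1)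

/-- **HGe** (geometric sum). Uses: nothing.
Proof. `1/sqrt (2^(-j) s) ≤ 1/sqrt (2^(J-j)) = (1/sqrt 2)^(J-j)` (`2^J ≤ s`), geometric sum `≤ 1/(1 - 1/sqrt 2) < 4` (`1/sqrt 2 ≤ 3/4`; e.g. induction on `J` for the sum `∑_{j ∈ Icc 1 J} (3/4)^(J-j) ≤ 4`). -/
def S_HGe : Prop := ∀ (s : ℝ) (J : ℕ), 2 ^ J ≤ s → ∑ j ∈ Icc 1 J, 1 / Real.sqrt ((1 - (1 - (1 / 2) ^ j)) * s) ≤ 4

/-- **HBp** (influence minus variance). Uses: S_HPa.
Proof. `F^2 = 1`, Ek_const, S_HPa: `∑_T wt c_T^2 = 1`. So `Bk = ∑_{T ≠ ∅} (|T| - 1) wt c_T^2 ≥ 0`. (2) for `|T| ≥ 2`: `|T| - 1 ≥ |T|/2`, so `2 Bk ≥ ∑_{|T| ≥ 2} |T| wt c_T^2 = Ik - ∑_{|T| = 1} wt c_T^2`. -/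
def S_HBp : Prop := ∀ (p : ℕ → ℝ) (V : Finset ℕ) (F : ℕ → ℝ) (x : ℕ), (∀ j, 0 ≤ p j ∧ p j ≤ 1) →
  (∀ y, F y = 1 ∨ F y = -1) → 0 ≤ Bk p V F x ∧
  Ik p V F x - ∑ T ∈ V.powerset.filter (fun T => T.card = 1), wt p T * ck p V T F x ^ 2 ≤ 2 * Bk p V F x

/-- **HR1** (sum of the variances at least 8). Uses: S_HAv, S_HPs, S_HDy, S_HGe, S_HIr, S_HBp.
Proof. `s = sg p V`, `J` with `2^J ≤ s < 2^(J+1)`. S_HAv with `lam k = s/k`; `sg p (V \ S) ≤ s`, S_HPs, S_HDy (for `S = ∅` the sums are `0`): `Ph ≤ ∑_S wt c_S^2 (9 |S| + (7/2)(4 |S| + 3 ∑_j |S| r_j^(|S|-1)))`, `r_j = 1 - 2^(-j) ≥ 1/2`. S_HIr: `∑_S |S| r_j^(|S|-1) wt c_S^2 ≤ Ik/sqrt ((1 - r_j) s)`, S_HGe: the sum over `j` is `≤ 4 Ik` (`Ik ≥ 0`).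
So `Ph ≤ (9 + 14 + 42) Ik = 65 Ik`. S_HIr for `r = 1/2`: the terms with `|T| = 1` (`r^0 = 1`; the others are `≥ 0`): `∑_{|T|=1} wt c_T^2 ≤ Ik/sqrt (s/2) ≤ Ik/2`; S_HBp: `Ik ≤ 4 Bk`. Total `2 + 260 ≤ 300`, `Bk ≥ 0`. -/
def S_HR1 : Prop := ∀ (p : ℕ → ℝ) (V : Finset ℕ) (F : ℕ → ℝ) (x : ℕ), (∀ j, 0 ≤ p j ∧ p j ≤ 1) →
  (∀ y, F y = 1 ∨ F y = -1) → 8 ≤ sg p V → Hk p V F x ≤ hh (ck p V ∅ F x ^ 2) + 300 * Bk p V F x

/-! ## Part 3: sum of the variances at most 8 (local form of RD) -/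

/-- local form of `LR`: one walk, regions which are empty from the time `N` on -/
def LS {σ : Type} (s : ℕ → σ → Bool → σ) (p : ℕ → σ → ℝ) (N : ℕ) (C : ℝ) : Prop := ∀ (m : ℕ → σ → ℝ)
  (A : ℕ → Finset σ) (n t : ℕ) (x : σ) (b c : ℝ), 0 < b → (∀ u, N ≤ u → A u = ∅) →
  (∀ u, ∀ y ∈ A u, Mg s p m u y) → (∀ u, ∀ y ∈ A u, |m u y - c| ≤ b / 2) →
  EV s p A (fun u y => if |al s m u y| ≤ b then vv p u y * al s m u y ^ 2 * (1 + lg b (al s m u y)) else 0) 0 n t x ≤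
    C * b ^ 2 * (1 + EV s p A (cN s p m b) 0 n t x)

/-- **HLs** (bounded total variance of the bits). Uses: nothing.
Proof. For `|α| ≤ b` (`α = al`): `α^2 (1 + lg b α) ≤ 2 b^2`: with `y = |α|/b ∈ [0,1]`: `y^2 + y^2 log (1/y) ≤ 1 + 1` (`y log (1/y) ≤ 1`; `α = 0` clear). So the cost is `≤ 2 b^2 ω u` on `A u`, and by EV_le with the bound `2 b^2 ∑_{k ∈ Ico t N} ω k` (`x ∈ A t` implies `t < N`, so `Ico t N = insert t (Ico (t+1) N)`; outside `A` it is `≥ 0`; `avg` of the two children)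
the left side is `≤ 2 b^2 ∑_{k ∈ Ico t N} ω k ≤ 16 b^2 ≤ 16 b^2 (1 + EV cN)` (EV_nonneg, `cN ≥ 0`). -/
def S_HLs : Prop := ∀ (σ : Type) (s : ℕ → σ → Bool → σ) (p : ℕ → σ → ℝ) (ω : ℕ → ℝ) (N : ℕ), Pb p →
  (∀ u, 0 ≤ ω u) → (∀ u y, vv p u y ≤ ω u) → ∑ u ∈ range N, ω u ≤ 8 → LS s p N 16

/-- **HF3**. Uses: nothing. MODEL: RD/GF3.lean (the regions `R` to which LR is applied are contained in `A`, so they are empty from `N` on; no cardinalities). -/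
def S_HF3 : Prop := ∀ (σ : Type) (s : ℕ → σ → Bool → σ) (p : ℕ → σ → ℝ) (N : ℕ) (C : ℝ), 1 ≤ C → Pb p → LS s p N C →
  ∀ (m : ℕ → σ → ℝ) (A : ℕ → Finset σ) (n t : ℕ) (x : σ), (∀ u, N ≤ u → A u = ∅) → (∀ u, ∀ y ∈ A u, Mg s p m u y) →
  EV s p A (cL s p m) 0 n t x ≤ 16 * C * EV s p A 0 (fun u y => m u y ^ 2) n t x

/-- **HFb**. Uses: S_MJn, S_MPs. MODEL: RD/GFb.lean (changes as in HF3). -/
def S_HFb : Prop := ∀ (σ : Type) (s : ℕ → σ → Bool → σ) (p : ℕ → σ → ℝ) (N : ℕ) (C : ℝ), 1 ≤ C → Pb p → LS s p N C →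
  ∀ (m : ℕ → σ → ℝ) (A : ℕ → Finset σ) (n t : ℕ) (x : σ), (∀ u, N ≤ u → A u = ∅) → (∀ u, ∀ y ∈ A u, Mg s p m u y) →
  (∀ u y, 0 ≤ m u y ∧ m u y ≤ 1) →
  EV s p A (fun u y => vv p u y * al s m u y ^ 2 * (1 + lg 1 (al s m u y))) 0 n t x ≤ 82 * C * m t x

/-- **HF4**. Uses: S_MSq, S_HF3, S_HFb. MODEL: RD/GF4.lean. -/
def S_HF4 : Prop := ∀ (σ : Type) (s : ℕ → σ → Bool → σ) (p : ℕ → σ → ℝ) (N : ℕ) (C : ℝ), 1 ≤ C → Pb p → LS s p N C →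
  ∀ (m : ℕ → σ → ℝ) (A : ℕ → Finset σ) (n t : ℕ) (x : σ), (∀ u, N ≤ u → A u = ∅) → (∀ u, ∀ y ∈ A u, Mg s p m u y) →
  (∀ u y, |m u y| ≤ 1) →
  EV s p A (cL s p m) 0 n t x ≤ 328 * C * (EV s p A 0 (fun u y => |m u y| - m u y ^ 2) n t x +
    EV s p A (fun u y => vv p u y * al s m u y ^ 2) 0 n t x)

/-- **HSg**. Uses: S_HF4, S_NMg, S_GTc, S_NSx, S_NSe. MODEL: RD/GSg.lean (`At v n T u = ∅` for `n ≤ u`). -/
def S_HSg : Prop := ∀ (w : ℕ) (C : ℝ), 1 ≤ C → ∀ (n M : ℕ) (s : ℕ → Fin w → Bool → Fin w)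
  (v : ℕ → Fin w → ℕ) (p : ℕ → ℝ) (o : Fin w → ℝ) (x : Fin w), LS s (pn v p) n C → (∀ i, 0 ≤ p i ∧ p i ≤ 1) →
  (∀ t z, v t z < M) → (∀ z, o z = 1 ∨ o z = -1) → (∀ t z, t < n → |Om s v p o n ∅ t z| ≤ J1 s v p o n M t z) →
  ∑ j ∈ range M, wt p {j} * EV s (pn v p) (At v n {j}) (DT s v p o n {j}) 0 n 0 x ≤
    2296 * C * (2 * BB s v p o n M x)

/-- **HLg**. Uses: S_HF3, S_NMg, S_GTc, S_NL2. MODEL: RD/GLg.lean. -/
def S_HLg : Prop := ∀ (w : ℕ) (C : ℝ), 1 ≤ C → ∀ (n M : ℕ) (s : ℕ → Fin w → Bool → Fin w)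
  (v : ℕ → Fin w → ℕ) (p : ℕ → ℝ) (o : Fin w → ℝ) (x : Fin w), LS s (pn v p) n C → (∀ i, 0 ≤ p i ∧ p i ≤ 1) →
  (∀ t z, v t z < M) → Ro s v n → (∀ z, o z = 1 ∨ o z = -1) →
  ∑ T ∈ (range M).powerset.filter (fun T => 2 ≤ T.card), wt p T *
    EV s (pn v p) (At v n T) (DT s v p o n T) 0 n 0 x ≤ 112 * C * BB s v p o n M x

/-- **HPg** (the entropy inequality for one program). Uses: S_NCh, S_NSt, S_NIn, S_NEm, S_HSg, S_HLg. MODEL: RD/GPg.lean. -/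
def S_HPg : Prop := ∀ (w : ℕ) (C : ℝ), 1 ≤ C → ∀ (K : ℝ), 4706 * C ≤ K → ∀ (M n : ℕ) (s : ℕ → Fin w → Bool → Fin w)
  (v : ℕ → Fin w → ℕ) (p : ℕ → ℝ) (o : Fin w → ℝ) (x : Fin w), LS s (pn v p) n C → (∀ i, 0 ≤ p i ∧ p i ≤ 1) →
  (∀ t z, v t z < M) → Ro s v n → (∀ z, o z = 1 ∨ o z = -1) →
  (∀ t z, t < n → |Om s v p o n ∅ t z| ≤ J1 s v p o n M t z) →
  ∑ T ∈ (range M).powerset, wt p T * hh (Cf s v p o T n 0 x ^ 2) ≤ hh (Cf s v p o ∅ n 0 x ^ 2) +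
    K * (∑ T ∈ (range M).powerset, (T.card : ℝ) * (wt p T * Cf s v p o T n 0 x ^ 2) - (1 - Cf s v p o ∅ n 0 x ^ 2))

/-! ## Part 4: the counter program -/

/-- the counter: states `0, .., n` -/
def cs (n : ℕ) : ℕ → Fin (n + 1) → Bool → Fin (n + 1) :=
  fun _ x b => if b then ⟨min (x.val + 1) n, by omega⟩ else x

/-- the counter reads the bit `t` at the time `t` -/
def cv (n : ℕ) : ℕ → Fin (n + 1) → ℕ := fun t _ => if t < n then t else 0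

/-- **HCf** (the coefficients of the counter). Uses: nothing.
Proof. (1) clear. (2) `t < n`: `cv n t x = t`, and by induction on `k` every element of `rd (cs n) (cv n) k t' x'`, `t' + k = n`, is `≥ t'`. (3) Induction on `k` (for all `T, t, x`). `k = 0`: `T = ∅`: `ck p ∅ ∅ F x = F x`. `k + 1`: `t < n`, `cv n t x = t`, the children are `x` (`false`) and `x + 1` (`true`, `x + 1 ≤ n`), `Ico t (t + (k+1)) = insert t (Ico (t+1) (t+1+k))`.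
`t ∈ T`: ck_insert2 for `T.erase t`; `T ⊆ Ico t ..` iff `T.erase t ⊆ Ico (t+1) ..`. `t ∉ T`: ck_insert1. -/
def S_HCf : Prop := ∀ (n : ℕ), (∀ t z, cv n t z < n + 1) ∧ Ro (cs n) (cv n) n ∧
  ∀ (p : ℕ → ℝ) (F : ℕ → ℝ) (T : Finset ℕ) (k t : ℕ) (x : Fin (n + 1)), t + k = n → x.val + k ≤ n →
    Cf (cs n) (cv n) p (fun z => F z.val) T k t x =
      if T ⊆ Ico t (t + k) then ck p (Ico t (t + k)) T F x.val else 0

/-- **HSy** (PG for a symmetric gate). Uses: S_HLs, S_HPg, S_HR1, S_HBp, S_HCf.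
Proof. Case `sg p (range n) ≤ 8`: S_HLs with `ω u = if u < n then p u * (1 - p u) else 1/4` (`vv (pn (cv n) p) u y = p u (1 - p u)` for `u < n`, `≤ 1/4` otherwise), S_HPg with `C = 16`, `4706 * 16 = 75296`. Case `8 ≤ sg p (range n)`: by S_HCf (`k = n`, `t = 0`, `x = 0`; `Ico 0 (0+n) = range n`) the terms with `n ∈ T` are `0` (`hh 0 = 0`), and for `T ⊆ range n`
`Cf = ck p (range n) T F 0`; so the sums over `(range (n+1)).powerset` are the sums over `(range n).powerset`: `Hk` and `Ik`. S_HR1, `300 ≤ K`, `Bk ≥ 0` (S_HBp). -/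
def S_HSy : Prop := ∀ (K : ℝ), 75296 ≤ K → ∀ (n : ℕ) (p : ℕ → ℝ) (F : ℕ → ℝ), (∀ i, 0 ≤ p i ∧ p i ≤ 1) →
  (∀ y, F y = 1 ∨ F y = -1) →
  (∀ t z, t < n → |Om (cs n) (cv n) p (fun z => F z.val) n ∅ t z| ≤ J1 (cs n) (cv n) p (fun z => F z.val) n (n + 1) t z) →
  ∑ T ∈ (range (n + 1)).powerset, wt p T * hh (Cf (cs n) (cv n) p (fun z => F z.val) T n 0 0 ^ 2) ≤
    hh (Cf (cs n) (cv n) p (fun z => F z.val) ∅ n 0 0 ^ 2) +
    K * (∑ T ∈ (range (n + 1)).powerset, (T.card : ℝ) * (wt p T * Cf (cs n) (cv n) p (fun z => F z.val) T n 0 0 ^ 2) -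
      (1 - Cf (cs n) (cv n) p (fun z => F z.val) ∅ n 0 0 ^ 2))

/-! ## Part 5: the class -/

/-- **Read-once compositions of branching programs of width `w` and of symmetric functions**: the smallest class of
functions `(Fin N → Bool) → {1, -1}` which contains the constants and the variables, and with functions `u i` (`i : ℕ`)
of pairwise disjoint sets `P i` of variables also
`comp`: every function computed by a read-once branching program with `w` states per level whose nodes read the values of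
the `u i` (as in `RC.RO`), and
`sym`: every symmetric function of `u 0, .., u (n-1)`: the value is `-1` iff the number of the `i < n` with `u i = -1` is in the set `o`. -/
inductive RG (w : ℕ) {N : ℕ} : ((Fin N → Bool) → ℝ) → Prop
  | const (c : Bool) : RG w (fun _ => if c then -1 else 1)
  | var (a : Fin N) : RG w (fun x => if x a then -1 else 1)
  | comp (P : ℕ → Finset (Fin N)) (u : ℕ → (Fin N → Bool) → ℝ)
      (hP : ∀ i j, i ≠ j → Disjoint (P i) (P j)) (hd : ∀ i, Dp (P i) (u i)) (hu : ∀ i, RG w (u i))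
      (n : ℕ) (s : ℕ → Fin w → Bool → Fin w) (v : ℕ → Fin w → ℕ) (x0 : Fin w) (o : Fin w → Bool)
      (hr : ReadOnce s v n x0) :
      RG w (fun x => if o (run s v x0 (fun i => decide (u i x = -1)) n) then -1 else 1)
  | sym (P : ℕ → Finset (Fin N)) (u : ℕ → (Fin N → Bool) → ℝ)
      (hP : ∀ i j, i ≠ j → Disjoint (P i) (P j)) (hd : ∀ i, Dp (P i) (u i)) (hu : ∀ i, RG w (u i))
      (n : ℕ) (o : ℕ → Bool) :
      RG w (fun x => if o ((range n).filter (fun i => u i x = -1)).card then -1 else 1)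

/-- **HCm** (composition with one program). Uses: S_Vsm, S_Fml. MODEL: RC/Cmp.lean (the inequality `hpg` is now a hypothesis). -/
def S_HCm : Prop := ∀ (w : ℕ) (K : ℝ) (N M n : ℕ) (s : ℕ → Fin w → Bool → Fin w) (v : ℕ → Fin w → ℕ)
  (o : Fin w → ℝ) (x : Fin w) (P : ℕ → Finset (Fin N)) (u : ℕ → (Fin N → Bool) → ℝ), Cp P u → (∀ t x, v t x < M) → Ro s v n →
  (∑ T ∈ (range M).powerset, wt (pb u) T * hh (Cf s v (pb u) o T n 0 x ^ 2) ≤ hh (Cf s v (pb u) o ∅ n 0 x ^ 2) +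
    K * (∑ T ∈ (range M).powerset, (T.card : ℝ) * (wt (pb u) T * Cf s v (pb u) o T n 0 x ^ 2) -
      (1 - Cf s v (pb u) o ∅ n 0 x ^ 2))) →
  (∀ i, ∑ S ∈ (univ : Finset (Finset (Fin N))).erase ∅, hh (coeff (u i) S ^ 2) ≤ K * (influence (u i) - (1 - coeff (u i) ∅ ^ 2))) →
  ∑ S ∈ (univ : Finset (Finset (Fin N))).erase ∅, hh (coeff (Fs s v o u n 0 x) S ^ 2) ≤
    K * (influence (Fs s v o u n 0 x) - (1 - coeff (Fs s v o u n 0 x) ∅ ^ 2))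

/-- **HSc** (the counter computes the symmetric function). Uses: nothing.
Proof. Claim for `t + k = n`, `x.val + k ≤ n`: `Fs (cs n) (cv n) O u k t x y = if o (x.val + ((Ico t n).filter (fun i => u i y = -1)).card) then -1 else 1`, `O z = if o z.val then -1 else 1`. Induction on `k`: `Ico t n = insert t (Ico (t+1) n)` for `t < n`, `cv n t x = t`, the child is `x` or `x + 1` (`x + 1 ≤ n`). `k = n`, `t = 0`, `x = 0`, `Ico 0 n = range n`. -/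
def S_HSc : Prop := ∀ (N n : ℕ) (u : ℕ → (Fin N → Bool) → ℝ) (o : ℕ → Bool) (y : Fin N → Bool),
  Fs (cs n) (cv n) (fun z => if o z.val then -1 else 1) u n 0 0 y =
    if o ((range n).filter (fun i => u i y = -1)).card then -1 else 1

/-- **HCl** (the sharp entropy inequality for the class `RG w`). Uses: S_Cmp, S_Fix, S_Piv, S_HSy, S_HCf, S_HCm, S_HSc. MODEL: RC/Clo.lean.
Proof. Induction on `RG w f` (prove at the same time: all values are `1` or `-1`). const, var, comp: as in RC/Clo.lean. sym: `Cp P u` (values `1`, `-1` by the induction hypothesis), `F k = if o k then -1 else 1`, S_HSc (function equality), S_HCm with `w := n + 1`, `M := n + 1`, `s := cs n`, `v := cv n` (S_HCf), `p = pb u`; its hypothesis is S_HSy (`0 ≤ pb u i ≤ 1` because the values of `u i` are `± 1`: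
`coeff (u i) ∅` is a mean; or S_Vsm-like argument as in RC; the last hypothesis of S_HSy is S_Piv). -/
def S_HCl : Prop := ∀ (w : ℕ) (K0 K : ℝ), PG w K0 → K0 ≤ K → 75296 ≤ K → ∀ (N : ℕ) (f : (Fin N → Bool) → ℝ), RG w f →
  (∀ x, f x = 1 ∨ f x = -1) ∧
  ∑ S ∈ (univ : Finset (Finset (Fin N))).erase ∅, hh (coeff f S ^ 2) ≤ K * (influence f - (1 - coeff f ∅ ^ 2))

/-- **HFn** (final statement). Uses: S_GVar, S_GPg, S_HCl. MODEL: RD/GFn.lean.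
Proof. `K = 4706 * (7000000 * w) ≥ 75296` (`w ≥ 1`), `PG w K` by S_GPg, S_GVar; S_HCl with `K0 = K`. `C = 4706 * 7000000 / log 2`. The rest as in RD/GFn.lean. -/
def S_HFn : Prop := ∃ C : ℝ, 0 < C ∧ ∀ w : ℕ, 1 ≤ w → ∀ (N : ℕ) (f : (Fin N → Bool) → ℝ), RG w f →
  ∑ S ∈ (univ : Finset (Finset (Fin N))).erase ∅, coeff f S ^ 2 * Real.logb 2 (1 / coeff f S ^ 2) ≤
    C * w * (influence f - (1 - coeff f ∅ ^ 2)) ∧
  specEntropy f ≤ C * w * influence f ∧ ∃ S : Finset (Fin N), (2 : ℝ) ^ (-(C * w * influence f / 2)) ≤ |coeff f S|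

end Pool.Agent.MP3145b1.RG
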